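import Pool.Agent.H789.AL.Base

set_option autoImplicit false

/-! # Six even subgraphs with every edge in exactly four of them: few disjoint small odd cuts

A finite graph, loops and parallel edges allowed, has vertex set `V` and edge set `E`; the ends of
the edge `e` are `src e` and `dst e`.  If the graph has no cut edge and does not contain seventeen
pairwise disjoint vertex sets whose numbers of boundary edges are 3, 5, 7 or 9, then it has six even
subgraphs such that every edge is in exactly four of them.

Proof.  By the files `X42` of the library every such graph has a nowhere-zero flow over the group of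
order four or a Petersen quotient, and so have the graphs obtained by identification of vertices.
The six even subgraphs are a flow with values in a symmetric set of the group of order 32; a Petersen
quotient is handled by gluing at the ten 3-cuts (`R890/FF`). -/

namespace Pool.Agent.Results.MP_40718a_co.FewSmallCuts

open Finset

/-- the simple graph in which two distinct vertices are adjacent if an edge in `F` joins them -/
def under {V E : Type} (src dst : E → V) (F : Set E) : SimpleGraph V where
  Adj x y := x ≠ y ∧ ∃ e ∈ F, (src e = x ∧ dst e = y) ∨ (src e = y ∧ dst e = x)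
  symm := ⟨fun _ _ h => ⟨h.1.symm, h.2.imp fun _ he => ⟨he.1, he.2.symm⟩⟩⟩
  loopless := ⟨fun _ h => h.1 rfl⟩

/-- the edge `e` is a cut edge: its ends are not connected by the other edges -/
def IsCutEdge {V E : Type} (src dst : E → V) (e : E) : Prop :=
  ¬ (under src dst {e' | e' ≠ e}).Reachable (src e) (dst e)

/-- the degree of `v` in the set of edges `F`, where a loop counts twice -/
def deg {V E : Type} [DecidableEq V] (src dst : E → V) (F : Finset E) (v : V) : ℕ :=
  ∑ e ∈ F, ((if src e = v then 1 else 0) + (if dst e = v then 1 else 0))

/-- The number of the edges with exactly one end in `X`. -/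
noncomputable def boundary {V E : Type} (src dst : E → V) (X : Set V) : ℕ :=
  {e | ¬ (src e ∈ X ↔ dst e ∈ X)}.ncard

/-- One of the following three conditions holds.  (1) For all pairwise disjoint vertex sets
`X 0, ..., X (m - 1)`, where `18 ≤ m`, with odd numbers of boundary edges, the sum of these numbers is
larger than `4 m - 6`.  (2) There are no seventeen pairwise disjoint vertex sets whose numbers of
boundary edges are odd and at most nine.  (3) For some `d ≥ 10` every vertex has at least `d`
different neighbours, and the number of the vertices is less than `17 (d + 1)`. -/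
def FewSmall {V E : Type} (src dst : E → V) : Prop :=
  (∀ (m : ℕ) (X : Fin m → Set V), 18 ≤ m → (∀ i j, i ≠ j → Disjoint (X i) (X j)) →
    (∀ i, Odd (boundary src dst (X i))) → 4 * m < ∑ i, boundary src dst (X i) + 6) ∨
  (¬ ∃ X : Fin 17 → Set V, (∀ i j, i ≠ j → Disjoint (X i) (X j)) ∧
    ∀ i, Odd (boundary src dst (X i)) ∧ boundary src dst (X i) ≤ 9) ∨
  ∃ d, 10 ≤ d ∧ Nat.card V < 17 * (d + 1) ∧
    ∀ v, d ≤ {w | w ≠ v ∧ ∃ e, (src e = v ∧ dst e = w) ∨ (src e = w ∧ dst e = v)}.ncard

/-- **Theorem.** Let a graph without a cut edge satisfy one of the three conditions of `FewSmall`,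
for example have no seventeen pairwise disjoint vertex sets with 3, 5, 7 or 9 boundary edges.  Then
it has six even subgraphs such that every edge is in exactly four of them. -/
theorem result (V E : Type) [Fintype V] [DecidableEq V] [Fintype E] [DecidableEq E]
    (src dst : E → V) (hI : ∀ e, ¬ IsCutEdge src dst e)
    (hs : FewSmall src dst) :
    ∃ C : Fin 6 → Finset E, (∀ i v, Even (deg src dst (C i) v)) ∧
      ∀ e, (univ.filter fun i => e ∈ C i).card = 4 := by
  classical
  -- no cut with one edge
  have hcut : Pool.Agent.TH676.A.Br src dst ∅ ∅ := by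
    intro Y _ hY
    rw [sdiff_empty] at hY
    obtain ⟨e, he⟩ := card_eq_one.mp hY
    apply hI e
    intro hr
    have hstay : ∀ x y, (under src dst {e' | e' ≠ e}).Reachable x y → (x ∈ Y ↔ y ∈ Y) := by
      rintro x y ⟨p⟩
      induction p with
      | nil => exact Iff.rfl
      | cons hadj _ ih =>
        refine Iff.trans ?_ ih
        obtain ⟨_, e', he', h1⟩ := hadj
        have hn : e' ∉ Pool.Agent.TH676.A.crs src dst Y := by
          rw [he, mem_singleton]; exact he'
        rw [Pool.Agent.TH676.A.mem_crs, not_not] at hn
        rcases h1 with ⟨h2, h3⟩ | ⟨h2, h3⟩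
        · rw [h2, h3] at hn; exact hn
        · rw [h2, h3] at hn; exact hn.symm
    have hm : e ∈ Pool.Agent.TH676.A.crs src dst Y := by rw [he]; exact mem_singleton_self _
    rw [Pool.Agent.TH676.A.mem_crs] at hm
    exact hm (hstay _ _ hr)
  have hs' : Pool.Agent.X42.FewCuts.FewSmallCuts src dst := hs
  obtain ⟨C, h1, h2⟩ := Pool.Agent.TH497.BF.six (Pool.Agent.H789.AL.bf_of src dst hcut
    (Pool.Agent.H789.AL.good_few src dst (Pool.Agent.R890.FF.n1_of_br hcut) hs'))
  exact ⟨C, h1, h2⟩

end Pool.Agent.Results.MP_40718a_co.FewSmallCuts
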