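import Pool.Agent.H789.AL.Base

set_option autoImplicit false

/-! # Six even subgraphs with every edge in exactly four of them: independence number at most six

A finite graph, loops and parallel edges allowed, has vertex set `V` and edge set `E`; the ends of
the edge `e` are `src e` and `dst e`.  If the graph has no cut edge and any seven different vertices,
none of them isolated, include two which are joined by an edge or by two different paths with two
edges (for example, if its independence number is at most six), then it has six even subgraphs such
that every edge is in exactly four of them.  The order, the degrees and the connectivity are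
arbitrary.

Proof.  The class is closed under the identification of vertices.  By the library (`R545/IN`,
`R890/FF`) a graph of the class has a nowhere-zero flow over the group of order four or a Petersen
quotient.  The six even subgraphs are a flow with values in a symmetric set of the group of order
32; a Petersen quotient is handled by gluing at the ten 3-cuts. -/

namespace Pool.Agent.Results.MP_40718a_co.IndependenceNumberSix

open Finset

/-- the simple graph in which two distinct vertices are adjacent if an edge in `F` joins them -/
def under {V E : Type} (src dst : E → V) (F : Set E) : SimpleGraph V where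
  Adj x y := x ≠ y ∧ ∃ e ∈ F, (src e = x ∧ dst e = y) ∨ (src e = y ∧ dst e = x)
  symm := ⟨fun _ _ h => ⟨h.1.symm, h.2.imp fun _ he => ⟨he.1, he.2.symm⟩⟩⟩
  loopless := ⟨fun _ h => h.1 rfl⟩

/-- the edge `e` is a cut edge: its ends are not connected by the other edges -/
def IsCutEdge {V E : Type} (src dst : E → V) (e : E) : Prop :=
  ¬ (under src dst {e' | e' ≠ e}).Reachable (src e) (dst e)

/-- the degree of `v` in the set of edges `F`, where a loop counts twice -/
def deg {V E : Type} [DecidableEq V] (src dst : E → V) (F : Finset E) (v : V) : ℕ :=
  ∑ e ∈ F, ((if src e = v then 1 else 0) + (if dst e = v then 1 else 0))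

/-- The edge `e` joins the vertices `x` and `y`. -/
def Joins {V E : Type} (src dst : E → V) (e : E) (x y : V) : Prop :=
  (src e = x ∧ dst e = y) ∨ (src e = y ∧ dst e = x)

/-- The vertices `x` and `y` are joined by an edge, or by two different paths with two edges (for
example, they have two common neighbours). -/
def Close {V E : Type} (src dst : E → V) (x y : V) : Prop :=
  (∃ e, Joins src dst e x y) ∨
    ∃ (e f e' f' : E) (a b : V), (e ≠ e' ∨ f ≠ f') ∧ Joins src dst e x a ∧ Joins src dst f a y ∧
      Joins src dst e' x b ∧ Joins src dst f' b y

/-- **Theorem.** Let a graph without a cut edge have the property that any seven different vertices,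
each of which is an end of an edge, include two which are joined by an edge or by two different paths
with two edges.  Then the graph has six even subgraphs such that every edge is in exactly four of
them. -/
theorem result (V E : Type) [Fintype V] [DecidableEq V] [Fintype E] [DecidableEq E]
    (src dst : E → V) (hI : ∀ e, ¬ IsCutEdge src dst e)
    (h7 : ∀ x : Fin 7 → V, Function.Injective x → (∀ i, ∃ e, src e = x i ∨ dst e = x i) →
      ∃ i j, i ≠ j ∧ Close src dst (x i) (x j)) :
    ∃ C : Fin 6 → Finset E, (∀ i v, Even (deg src dst (C i) v)) ∧
      ∀ e, (univ.filter fun i => e ∈ C i).card = 4 := by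
  classical
  -- no cut with one edge
  have hcut : Pool.Agent.TH676.A.Br src dst ∅ ∅ := by
    intro Y _ hY
    rw [sdiff_empty] at hY
    obtain ⟨e, he⟩ := card_eq_one.mp hY
    apply hI e
    intro hr
    have hstay : ∀ x y, (under src dst {e' | e' ≠ e}).Reachable x y → (x ∈ Y ↔ y ∈ Y) := by
      rintro x y ⟨p⟩
      induction p with
      | nil => exact Iff.rfl
      | cons hadj _ ih =>
        refine Iff.trans ?_ ih
        obtain ⟨_, e', he', h1⟩ := hadj
        have hn : e' ∉ Pool.Agent.TH676.A.crs src dst Y := by
          rw [he, mem_singleton]; exact he'
        rw [Pool.Agent.TH676.A.mem_crs, not_not] at hn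
        rcases h1 with ⟨h2, h3⟩ | ⟨h2, h3⟩
        · rw [h2, h3] at hn; exact hn
        · rw [h2, h3] at hn; exact hn.symm
    have hm : e ∈ Pool.Agent.TH676.A.crs src dst Y := by rw [he]; exact mem_singleton_self _
    rw [Pool.Agent.TH676.A.mem_crs] at hm
    exact hm (hstay _ _ hr)
  have h7' : Pool.Agent.R545.PC.Cl src dst := h7
  obtain ⟨C, h1, h2⟩ := Pool.Agent.TH497.BF.six (Pool.Agent.R545.PC.alg_seven
    Pool.Agent.TH497.BF.algAg Pool.Agent.R890.FF.petBF
    ⟨Pool.Agent.R890.FF.embBF, Pool.Agent.R890.FF.emb_A⟩ src dst
    (Pool.Agent.R890.FF.n1_of_br hcut) h7')
  exact ⟨C, h1, h2⟩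

end Pool.Agent.Results.MP_40718a_co.IndependenceNumberSix
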