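import Pool.Agent.H789.AL.Base

set_option autoImplicit false

/-! # Six even subgraphs with every edge in exactly four of them: few independent small odd cuts

A finite graph, loops and parallel edges allowed, has vertex set `V` and edge set `E`; the ends of
the edge `e` are `src e` and `dst e`.  Let the graph have no cut edge, let `U` be a set of vertices,
and `a ≥ 3`, `c ≥ 1` with `4 a + |U| + ⌊6 / c⌋ ≤ 21`, such that the graph has no `a + 1` pairwise
disjoint and pairwise non-adjacent vertex sets disjoint from `U`, each with an odd number, at most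
`2 c + 1`, of boundary edges.  Then the graph has six even subgraphs such that every edge is in
exactly four of them.

Proof.  By the files `X186` of the library every such graph has a nowhere-zero flow over the group of
order four or a Petersen quotient, and so have the graphs obtained by identification of vertices.
The six even subgraphs are a flow with values in a symmetric set of the group of order 32; a Petersen
quotient is handled by gluing at the ten 3-cuts (`R890/FF`). -/

namespace Pool.Agent.Results.MP_40718a_co.IndependentSmallCuts

open Finset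

/-- the simple graph in which two distinct vertices are adjacent if an edge in `F` joins them -/
def under {V E : Type} (src dst : E → V) (F : Set E) : SimpleGraph V where
  Adj x y := x ≠ y ∧ ∃ e ∈ F, (src e = x ∧ dst e = y) ∨ (src e = y ∧ dst e = x)
  symm := ⟨fun _ _ h => ⟨h.1.symm, h.2.imp fun _ he => ⟨he.1, he.2.symm⟩⟩⟩
  loopless := ⟨fun _ h => h.1 rfl⟩

/-- the edge `e` is a cut edge: its ends are not connected by the other edges -/
def IsCutEdge {V E : Type} (src dst : E → V) (e : E) : Prop :=
  ¬ (under src dst {e' | e' ≠ e}).Reachable (src e) (dst e)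

/-- the degree of `v` in the set of edges `F`, where a loop counts twice -/
def deg {V E : Type} [DecidableEq V] (src dst : E → V) (F : Finset E) (v : V) : ℕ :=
  ∑ e ∈ F, ((if src e = v then 1 else 0) + (if dst e = v then 1 else 0))

/-- The number of the edges with exactly one end in `X`. -/
noncomputable def boundary {V E : Type} (src dst : E → V) (X : Set V) : ℕ :=
  {e | ¬ (src e ∈ X ↔ dst e ∈ X)}.ncard

/-- Some edge has one end in `X` and the other in `Y`. -/
def Adjacent {V E : Type} (src dst : E → V) (X Y : Set V) : Prop :=
  ∃ e, (src e ∈ X ∧ dst e ∈ Y) ∨ (src e ∈ Y ∧ dst e ∈ X)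

/-- There are a set `U` of vertices and numbers `a ≥ 3` and `c ≥ 1` with
`4 a + |U| + ⌊6 / c⌋ ≤ 21` such that there are no `a + 1` pairwise disjoint and pairwise non-adjacent
vertex sets, all of them disjoint from `U`, each with an odd number, at most `2 c + 1`, of boundary
edges. -/
def Independent {V E : Type} (src dst : E → V) : Prop :=
  ∃ (U : Set V) (a c : ℕ), 3 ≤ a ∧ 1 ≤ c ∧ 4 * a + U.ncard + 6 / c ≤ 21 ∧
    ¬ ∃ X : Fin (a + 1) → Set V,
      (∀ i j, i ≠ j → Disjoint (X i) (X j) ∧ ¬ Adjacent src dst (X i) (X j)) ∧
      (∀ i, Disjoint (X i) U) ∧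
      ∀ i, Odd (boundary src dst (X i)) ∧ boundary src dst (X i) ≤ 2 * c + 1

/-- **Theorem.** A graph without a cut edge which satisfies the condition `Independent` has six even
subgraphs such that every edge is in exactly four of them. -/
theorem result (V E : Type) [Fintype V] [DecidableEq V] [Fintype E] [DecidableEq E]
    (src dst : E → V) (hI : ∀ e, ¬ IsCutEdge src dst e)
    (hs : Independent src dst) :
    ∃ C : Fin 6 → Finset E, (∀ i v, Even (deg src dst (C i) v)) ∧
      ∀ e, (univ.filter fun i => e ∈ C i).card = 4 := by
  classical
  -- no cut with one edge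
  have hcut : Pool.Agent.TH676.A.Br src dst ∅ ∅ := by
    intro Y _ hY
    rw [sdiff_empty] at hY
    obtain ⟨e, he⟩ := card_eq_one.mp hY
    apply hI e
    intro hr
    have hstay : ∀ x y, (under src dst {e' | e' ≠ e}).Reachable x y → (x ∈ Y ↔ y ∈ Y) := by
      rintro x y ⟨p⟩
      induction p with
      | nil => exact Iff.rfl
      | cons hadj _ ih =>
        refine Iff.trans ?_ ih
        obtain ⟨_, e', he', h1⟩ := hadj
        have hn : e' ∉ Pool.Agent.TH676.A.crs src dst Y := by
          rw [he, mem_singleton]; exact he'
        rw [Pool.Agent.TH676.A.mem_crs, not_not] at hn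
        rcases h1 with ⟨h2, h3⟩ | ⟨h2, h3⟩
        · rw [h2, h3] at hn; exact hn
        · rw [h2, h3] at hn; exact hn.symm
    have hm : e ∈ Pool.Agent.TH676.A.crs src dst Y := by rw [he]; exact mem_singleton_self _
    rw [Pool.Agent.TH676.A.mem_crs] at hm
    exact hm (hstay _ _ hr)
  have hs' : Pool.Agent.X186.IC.IndependentSmallCuts src dst := hs
  obtain ⟨C, h1, h2⟩ := Pool.Agent.TH497.BF.six (Pool.Agent.H789.AL.bf_of src dst hcut
    (Pool.Agent.H789.AL.good_indep src dst hs'))
  exact ⟨C, h1, h2⟩

end Pool.Agent.Results.MP_40718a_co.IndependentSmallCuts
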