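import Pool.Agent.H789.AL.Base

set_option autoImplicit false

/-! # Six even subgraphs with every edge in exactly four of them: vertex cover number at most nine

A finite graph, loops and parallel edges allowed, has vertex set `V` and edge set `E`; the ends of
the edge `e` are `src e` and `dst e`.  If the graph has no cut edge and at most nine vertices cover
all edges other than loops, then it has six even subgraphs such that every edge is in exactly four
of them.  The order, the degrees and the connectivity are arbitrary.

Proof.  By the library (`R890/FF`) such a graph has a nowhere-zero flow over the group of order four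
or a Petersen quotient, and so have the graphs obtained by identification of vertices.  The six even
subgraphs are a flow with values in a symmetric set of the group of order 32; a Petersen quotient is
handled by gluing at the ten 3-cuts. -/

namespace Pool.Agent.Results.MP_40718a_co.VertexCoverNine

open Finset

/-- the simple graph in which two distinct vertices are adjacent if an edge in `F` joins them -/
def under {V E : Type} (src dst : E → V) (F : Set E) : SimpleGraph V where
  Adj x y := x ≠ y ∧ ∃ e ∈ F, (src e = x ∧ dst e = y) ∨ (src e = y ∧ dst e = x)
  symm := ⟨fun _ _ h => ⟨h.1.symm, h.2.imp fun _ he => ⟨he.1, he.2.symm⟩⟩⟩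
  loopless := ⟨fun _ h => h.1 rfl⟩

/-- the edge `e` is a cut edge: its ends are not connected by the other edges -/
def IsCutEdge {V E : Type} (src dst : E → V) (e : E) : Prop :=
  ¬ (under src dst {e' | e' ≠ e}).Reachable (src e) (dst e)

/-- the degree of `v` in the set of edges `F`, where a loop counts twice -/
def deg {V E : Type} [DecidableEq V] (src dst : E → V) (F : Finset E) (v : V) : ℕ :=
  ∑ e ∈ F, ((if src e = v then 1 else 0) + (if dst e = v then 1 else 0))

/-- **Theorem.** A graph without a cut edge in which some set of at most nine vertices meets all
edges other than loops has six even subgraphs such that every edge is in exactly four of them. -/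
theorem result (V E : Type) [Fintype V] [DecidableEq V] [Fintype E] [DecidableEq E]
    (src dst : E → V) (hI : ∀ e, ¬ IsCutEdge src dst e)
    (W : Finset V) (h9 : W.card ≤ 9) (hW : ∀ e, src e ≠ dst e → src e ∈ W ∨ dst e ∈ W) :
    ∃ C : Fin 6 → Finset E, (∀ i v, Even (deg src dst (C i) v)) ∧
      ∀ e, (univ.filter fun i => e ∈ C i).card = 4 := by
  classical
  -- no cut with one edge
  have hcut : Pool.Agent.TH676.A.Br src dst ∅ ∅ := by
    intro Y _ hY
    rw [sdiff_empty] at hY
    obtain ⟨e, he⟩ := card_eq_one.mp hY
    apply hI e
    intro hr
    have hstay : ∀ x y, (under src dst {e' | e' ≠ e}).Reachable x y → (x ∈ Y ↔ y ∈ Y) := by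
      rintro x y ⟨p⟩
      induction p with
      | nil => exact Iff.rfl
      | cons hadj _ ih =>
        refine Iff.trans ?_ ih
        obtain ⟨_, e', he', h1⟩ := hadj
        have hn : e' ∉ Pool.Agent.TH676.A.crs src dst Y := by
          rw [he, mem_singleton]; exact he'
        rw [Pool.Agent.TH676.A.mem_crs, not_not] at hn
        rcases h1 with ⟨h2, h3⟩ | ⟨h2, h3⟩
        · rw [h2, h3] at hn; exact hn
        · rw [h2, h3] at hn; exact hn.symm
    have hm : e ∈ Pool.Agent.TH676.A.crs src dst Y := by rw [he]; exact mem_singleton_self _
    rw [Pool.Agent.TH676.A.mem_crs] at hm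
    exact hm (hstay _ _ hr)
  obtain ⟨C, h1, h2⟩ := Pool.Agent.TH497.BF.six (Pool.Agent.R890.FF.bf_cover src dst W hcut hW h9)
  exact ⟨C, h1, h2⟩

end Pool.Agent.Results.MP_40718a_co.VertexCoverNine
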